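import Pool.Agent.Helper65.LT.Pc

/-!
PROJECT LT (MP_274814), block F4-F6, piece P14b: the singular terms at infinity.
-/

namespace Pool.Agent.Helper27.LT

open Pool.Agent.Helper34.LT Pool.Agent.Helper65.LT Finset Complex Filter Topology

noncomputable section

theorem P14b_gam_zero (α β : ℝ) : gam α β 0 = 1 / ((α : ℂ) + β - 1) := by
  unfold gam
  rw [tsum_eq_single 0 (fun p hp => by rw [zero_pow hp, mul_zero])]
  simp [cc]

theorem P14b_ball {q : ℕ} (hq : q ≠ 0) :
    Set.MapsTo (fun s : ℂ => s ^ q) (Metric.ball 0 1) (Metric.ball 0 1) := by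
  intro s hs
  rw [mem_ball_zero_iff] at hs ⊢
  rw [norm_pow]
  exact pow_lt_one₀ (norm_nonneg _) hs hq

/-- the regular part of one term -/
def P14b_R (q a b u : ℕ) (s : ℂ) : ℂ :=
  if u ∈ Phi q a b then s ^ (q - kk q a b u) * dslope (gam (al q a u) (al q b u)) 0 (s ^ q)
  else s ^ (q - Nk q a b u) * gam (al q a u) (al q b u) (s ^ q)

theorem P14b_R_diff {q a b u : ℕ} (hq : q ≠ 0)
    (hne : ∀ p : ℤ, al q a u + al q b u - 1 ≠ p) :
    DifferentiableOn ℂ (P14b_R q a b u) (Metric.ball 0 1) := by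
  have hg : DifferentiableOn ℂ (gam (al q a u) (al q b u)) (Metric.ball 0 1) :=
    gam_diff fun p => by exact_mod_cast hne (p : ℤ)
  have hd : DifferentiableOn ℂ (dslope (gam (al q a u) (al q b u)) 0) (Metric.ball 0 1) :=
    (Complex.differentiableOn_dslope (Metric.ball_mem_nhds 0 one_pos)).2 hg
  have hp : DifferentiableOn ℂ (fun s : ℂ => s ^ q) (Metric.ball 0 1) :=
    (differentiable_id.pow q).differentiableOn
  by_cases hu : u ∈ Phi q a b
  · have h1 : P14b_R q a b u = fun s : ℂ =>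
        s ^ (q - kk q a b u) * dslope (gam (al q a u) (al q b u)) 0 (s ^ q) := by
      funext s
      rw [P14b_R, if_pos hu]
    rw [h1]
    exact (differentiable_id.pow _).differentiableOn.mul (hd.comp hp (P14b_ball hq))
  · have h1 : P14b_R q a b u = fun s : ℂ =>
        s ^ (q - Nk q a b u) * gam (al q a u) (al q b u) (s ^ q) := by
      funext s
      rw [P14b_R, if_neg hu]
    rw [h1]
    exact (differentiable_id.pow _).differentiableOn.mul (hg.comp hp (P14b_ball hq))

/-- `q (al + be - 1)` -/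
theorem P14b_ke {q a b u : ℕ} (hq : q ≠ 0) :
    al q a u + al q b u - 1 = (ke q a b u : ℝ) / q := by
  have hq0 : (q : ℝ) ≠ 0 := by exact_mod_cast hq
  unfold al ke Nk
  rw [Int.cast_sub, Int.cast_natCast, Int.cast_natCast, Nat.cast_add]
  field_simp

/-- one term -/
theorem P14b_term {q a b u : ℕ} (hq : q ≠ 0) (hu : u ∈ Icc 1 (q - 1))
    (hne : ∀ p : ℤ, al q a u + al q b u - 1 ≠ p) {s : ℂ} (h0 : s ≠ 0) :
    s ^ (-(ke q a b u)) * gam (al q a u) (al q b u) (s ^ q) =
      (if u ∈ Phi q a b then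
        1 / ((al q a u : ℂ) + (al q b u : ℂ) - 1) * s ^ (-(kk q a b u : ℤ)) else 0) +
      P14b_R q a b u s := by
  have hmem : u ∈ Phi q a b ↔ q < Nk q a b u := by
    unfold Phi Nk
    rw [mem_filter]
    exact ⟨fun h => h.2, fun h => ⟨hu, h⟩⟩
  have hN : Nk q a b u ≠ q := by
    intro h
    apply hne 0
    rw [P14b_ke hq, ke, h]
    simp
  by_cases h : u ∈ Phi q a b
  · have hlt := hmem.1 h
    have hk : kk q a b u = Nk q a b u - q := rfl
    have hlt2 : Nk q a b u < 2 * q := by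
      have h1 := Nat.mod_lt (u * a) (Nat.pos_of_ne_zero hq)
      have h2 := Nat.mod_lt (u * b) (Nat.pos_of_ne_zero hq)
      unfold Nk
      omega
    have hke : ke q a b u = (kk q a b u : ℤ) := by
      rw [hk, ke]
      omega
    rw [P14b_R, if_pos h, if_pos h, hke]
    have hds : gam (al q a u) (al q b u) (s ^ q) =
        gam (al q a u) (al q b u) 0 +
          s ^ q * dslope (gam (al q a u) (al q b u)) 0 (s ^ q) := by
      have h1 := sub_smul_dslope (gam (al q a u) (al q b u)) 0 (s ^ q)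
      rw [sub_zero, smul_eq_mul] at h1
      rw [h1]
      ring
    have hpow : s ^ (-(kk q a b u : ℤ)) * s ^ q = s ^ (q - kk q a b u) := by
      have h2 : kk q a b u ≤ q := by omega
      rw [← zpow_natCast s q, ← zpow_add₀ h0, ← zpow_natCast s (q - kk q a b u)]
      congr 1
      omega
    rw [hds, P14b_gam_zero, mul_add, ← mul_assoc, hpow]
    ring
  · have hle : ¬ q < Nk q a b u := fun h1 => h (hmem.2 h1)
    rw [P14b_R, if_neg h, if_neg h, zero_add]
    congr 1
    rw [← zpow_natCast s (q - Nk q a b u), ke]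
    congr 1
    omega

/-- PIECE P14b, general form -/
theorem P14b_gen {q a b : ℕ} (hq : q ≠ 0)
    (hne : ∀ u ∈ Icc 1 (q - 1), ∀ p : ℤ, al q a u + al q b u - 1 ≠ p)
    (P : Polynomial ℤ) : ∃ r : ℂ → ℂ, DifferentiableOn ℂ r (Metric.ball 0 1) ∧
      ∀ s : ℂ, s ≠ 0 → ‖s‖ < 1 → phs q a b P s = ex q a b (lam q a b P) s * exp (r s) := by
  refine ⟨fun s => ∑ u ∈ Icc 1 (q - 1),
    exp (-(Real.pi * I * ((al q b u : ℂ) - 1))) * cu q a b P u * P14b_R q a b u s, ?_, ?_⟩
  · exact DifferentiableOn.fun_sum fun u hu => (P14b_R_diff hq (hne u hu)).const_mul _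
  · intro s h0 h1
    unfold phs ex
    rw [← exp_add]
    congr 1
    have e1 : ∑ u : Phi q a b, lam q a b P u * s ^ (-(kk q a b u : ℤ)) =
        ∑ u ∈ Phi q a b, rho q a b u * Polynomial.aeval (zt q ^ u) P *
          s ^ (-(kk q a b u : ℤ)) :=
      Finset.sum_coe_sort (Phi q a b) (fun u => rho q a b u * Polynomial.aeval (zt q ^ u) P *
          s ^ (-(kk q a b u : ℤ)))
    have e2 : ∑ u ∈ Phi q a b, rho q a b u * Polynomial.aeval (zt q ^ u) P *
          s ^ (-(kk q a b u : ℤ)) =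
        ∑ u ∈ Icc 1 (q - 1), if u ∈ Phi q a b then
          rho q a b u * Polynomial.aeval (zt q ^ u) P * s ^ (-(kk q a b u : ℤ)) else 0 := by
      rw [← Finset.sum_filter]
      refine Finset.sum_congr ?_ fun _ _ => rfl
      ext u
      rw [mem_filter]
      exact ⟨fun h => ⟨(mem_filter.1 h).1, h⟩, fun h => h.2⟩
    rw [e1, e2, ← Finset.sum_add_distrib]
    refine Finset.sum_congr rfl fun u hu => ?_
    rw [P14b_term hq hu (hne u hu) h0]
    by_cases h : u ∈ Phi q a b
    · rw [if_pos h, if_pos h, rho, cu]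
      have h2 : exp (-(Real.pi * I * ((al q b u : ℂ) - 1))) =
          exp (-(I * Real.pi * ((al q b u : ℂ) - 1))) := by
        congr 1
        ring
      rw [h2]
      simp only [div_eq_mul_inv, mul_inv]
      ring
    · rw [if_neg h, if_neg h]
      ring

/-- PIECE P14b -/
theorem phs_split' {q a b : ℕ} (hq : q.Prime) (ha : ¬ q ∣ a) (hb : ¬ q ∣ b) (hab : ¬ q ∣ a + b)
    (P : Polynomial ℤ) : ∃ r : ℂ → ℂ, DifferentiableOn ℂ r (Metric.ball 0 1) ∧
      ∀ s : ℂ, s ≠ 0 → ‖s‖ < 1 → phs q a b P s = ex q a b (lam q a b P) s * exp (r s) :=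
  P14b_gen hq.ne_zero (fun _ hu => al_add_ne hq hab hu) P

end

end Pool.Agent.Helper27.LT
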